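import Mathlib
import Pool.Agent.H451R5.AIStmts

set_option autoImplicit false

open MeasureTheory Filter Topology Set

namespace Pool.Agent.H663R5.KD

open Pool.Agent.H451R5.AI

/-- the radial antiderivative -/
noncomputable def G (m : ℕ) (r : ℝ) : ℝ :=
  -(m / 2 : ℝ) * ((Real.log (1 + r ^ (2 * m)) + 1) / (1 + r ^ (2 * m)))

/-- the radial density -/
noncomputable def g (m : ℕ) (r : ℝ) : ℝ :=
  (m : ℝ) ^ 2 * r ^ (2 * m - 1) * Real.log (1 + r ^ (2 * m)) / (1 + r ^ (2 * m)) ^ 2

lemma one_add_pos (m : ℕ) (r : ℝ) : 0 < 1 + r ^ (2 * m) := by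
  have : 0 ≤ r ^ (2 * m) := by rw [pow_mul]; positivity
  linarith

lemma hasDeriv (m : ℕ) (r : ℝ) : HasDerivAt (G m) (g m r) r := by
  have h0 := one_add_pos m r
  have h1 : HasDerivAt (fun r : ℝ => 1 + r ^ (2 * m)) ((2 * m : ℕ) * r ^ (2 * m - 1)) r := by
    simpa using (hasDerivAt_pow (2 * m) r).const_add 1
  have h2 := h1.log h0.ne'
  have h3 := ((h2.add_const 1).div h1 h0.ne').const_mul (-(m / 2 : ℝ))
  refine h3.congr_deriv ?_
  unfold g
  push_cast
  field_simp
  ring

lemma tend (m : ℕ) (hm : 1 ≤ m) : Tendsto (G m) atTop (𝓝 0) := by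
  have h1 : Tendsto (fun s : ℝ => (Real.log s + 1) / s) atTop (𝓝 0) := by
    have ha : Tendsto (fun s : ℝ => Real.log s / s) atTop (𝓝 0) := by
      have := Real.tendsto_pow_log_div_mul_add_atTop 1 0 1 one_ne_zero
      simpa using this
    have hb : Tendsto (fun s : ℝ => (1 : ℝ) / s) atTop (𝓝 0) := by
      simpa using tendsto_inv_atTop_zero (𝕜 := ℝ)
    have := ha.add hb
    simp only [add_zero] at this
    refine this.congr fun s => ?_
    rw [add_div]
  have h2 : Tendsto (fun r : ℝ => 1 + r ^ (2 * m)) atTop atTop :=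
    tendsto_atTop_add_const_left _ _ (tendsto_pow_atTop (by omega))
  have h3 := (h1.comp h2).const_mul (-(m / 2 : ℝ))
  rw [mul_zero] at h3
  exact h3

lemma nonneg (m : ℕ) (r : ℝ) (hr : r ∈ Ioi (0 : ℝ)) : 0 ≤ g m r := by
  have hr : 0 < r := hr
  have : 0 ≤ Real.log (1 + r ^ (2 * m)) := Real.log_nonneg (by
    have : 0 ≤ r ^ (2 * m) := by positivity
    linarith)
  unfold g
  positivity

lemma contW (m : ℕ) : ContinuousWithinAt (G m) (Ici 0) 0 :=
  (hasDeriv m 0).continuousAt.continuousWithinAt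

lemma key (m : ℕ) (hm : 1 ≤ m) : IntegrableOn (g m) (Ioi 0) ∧ ∫ r in Ioi (0 : ℝ), g m r = m / 2 := by
  constructor
  · exact integrableOn_Ioi_deriv_of_nonneg (contW m) (fun r _ => hasDeriv m r) (nonneg m)
      (tend m hm)
  · rw [integral_Ioi_of_hasDerivAt_of_nonneg (contW m) (fun r _ => hasDeriv m r) (nonneg m)
      (tend m hm)]
    have : (2 * m) ≠ 0 := by omega
    simp [G, this]

/-- the radial profile of `uu m * rho m` -/
noncomputable def f (m : ℕ) (r : ℝ) : ℝ :=
  Real.log (1 + r ^ (2 * m)) / 2 *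
    ((2 * Real.pi)⁻¹ * (2 * (m : ℝ) ^ 2 * r ^ (2 * m - 2) / (1 + r ^ (2 * m)) ^ 2))

lemma f_eq (m : ℕ) (hm : 1 ≤ m) (r : ℝ) : r * f m r = (2 * Real.pi)⁻¹ * g m r := by
  unfold f g
  have e : r ^ (2 * m - 1) = r * r ^ (2 * m - 2) := by
    rw [← pow_succ']
    congr 1
    omega
  rw [e]
  ring

theorem taskKD : TaskKD := by
  intro m hm
  have hk := key m hm
  have hd : Module.finrank ℝ ℂ = 2 := Complex.finrank_real_complex
  have hfun : (fun z : ℂ => uu m z * rho m z) = fun z => f m ‖z‖ := by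
    funext z
    simp only [uu, rho, f]
  rw [hfun]
  constructor
  · rw [MeasureTheory.integrable_fun_norm_addHaar (volume : Measure ℂ)]
    rw [hd]
    have h5 : IntegrableOn (fun x => (2 * Real.pi)⁻¹ * g m x) (Ioi 0) :=
      hk.1.const_mul ((2 * Real.pi)⁻¹)
    refine IntegrableOn.congr_fun h5 ?_ measurableSet_Ioi
    intro r _
    simp only [Nat.add_one_sub_one, pow_one, smul_eq_mul]
    exact (f_eq m hm r).symm
  · rw [MeasureTheory.integral_fun_norm_addHaar (volume : Measure ℂ), hd]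
    have hv : (volume : Measure ℂ).real (Metric.ball 0 1) = Real.pi := by
      simp [Measure.real, Complex.volume_ball]
    have hi : ∫ y in Ioi (0 : ℝ), y ^ (2 - 1) • f m y = (2 * Real.pi)⁻¹ * (m / 2) := by
      rw [← hk.2, ← integral_const_mul]
      refine setIntegral_congr_fun measurableSet_Ioi ?_
      intro r _
      simp only [Nat.add_one_sub_one, pow_one, smul_eq_mul]
      exact f_eq m hm r
    rw [hi]
    simp only [hv, nsmul_eq_mul, smul_eq_mul]
    have := Real.pi_pos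
    field_simp
    push_cast
    ring

end Pool.Agent.H663R5.KD
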