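import Mathlib

set_option autoImplicit false

namespace Pool.Agent.H663R5.K1

/-- terms over a list of natural numbers (variables = positions from the left) -/
inductive Tm : Type
  | var (i : ℕ) : Tm
  | lit (c : ℕ) : Tm
  | pair (s t : Tm) : Tm
  | add (s t : Tm) : Tm
  | mul (s t : Tm) : Tm
  | pow (s t : Tm) : Tm
  | div (s t : Tm) : Tm
  | mod (s t : Tm) : Tm

/-- value -/
def Tm.ev (l : List ℕ) : Tm → ℕ
  | .var i => l.getD i 0
  | .lit c => c
  | .pair s t => Nat.pair (s.ev l) (t.ev l)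
  | .add s t => s.ev l + t.ev l
  | .mul s t => s.ev l * t.ev l
  | .pow s t => s.ev l ^ t.ev l
  | .div s t => s.ev l / t.ev l
  | .mod s t => s.ev l % t.ev l

theorem prim_pow : Primrec₂ (fun a b : ℕ => a ^ b) := by
  have h : Primrec₂ (fun (a : ℕ) (b : ℕ) => (Nat.rec 1 (fun _ r => r * a) b : ℕ)) :=
    Primrec.nat_rec (f := fun _ : ℕ => (1 : ℕ)) (g := fun (a : ℕ) (p : ℕ × ℕ) => p.2 * a)
      (Primrec.const 1)
      ((Primrec.nat_mul.comp (Primrec.snd.comp Primrec.snd) Primrec.fst).to₂)
  refine h.of_eq ?_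
  intro a b
  induction b with
  | zero => rfl
  | succ b ih => simpa [pow_succ] using congrArg (· * a) ih

theorem Tm.prim (t : Tm) : Primrec (fun l : List ℕ => t.ev l) := by
  induction t with
  | var i =>
    have h := (Primrec.list_getD (α := ℕ) 0).comp Primrec.id (Primrec.const i)
    exact h
  | lit c => exact Primrec.const c
  | pair s t hs ht => exact Primrec₂.natPair.comp hs ht
  | add s t hs ht => exact Primrec.nat_add.comp hs ht
  | mul s t hs ht => exact Primrec.nat_mul.comp hs ht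
  | pow s t hs ht => exact prim_pow.comp hs ht
  | div s t hs ht => exact Primrec.nat_div.comp hs ht
  | mod s t hs ht => exact Primrec.nat_mod.comp hs ht

/-- bounded formulas -/
inductive Fo : Type
  | lt (s t : Tm) : Fo
  | le (s t : Tm) : Fo
  | eq (s t : Tm) : Fo
  | not (p : Fo) : Fo
  | and (p q : Fo) : Fo
  | or (p q : Fo) : Fo
  | imp (p q : Fo) : Fo
  | iff (p q : Fo) : Fo
  | all (t : Tm) (p : Fo) : Fo
  | ex (t : Tm) (p : Fo) : Fo

/-- truth; a quantified variable is appended on the right -/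
def Fo.ev : Fo → List ℕ → Prop
  | .lt s t, l => s.ev l < t.ev l
  | .le s t, l => s.ev l ≤ t.ev l
  | .eq s t, l => s.ev l = t.ev l
  | .not p, l => ¬ p.ev l
  | .and p q, l => p.ev l ∧ q.ev l
  | .or p q, l => p.ev l ∨ q.ev l
  | .imp p q, l => p.ev l → q.ev l
  | .iff p q, l => (p.ev l ↔ q.ev l)
  | .all t p, l => ∀ x < t.ev l, p.ev (l ++ [x])
  | .ex t p, l => ∃ x < t.ev l, p.ev (l ++ [x])

theorem Fo.prim (p : Fo) : PrimrecPred (fun l : List ℕ => p.ev l) := by
  induction p with
  | lt s t => exact Primrec.nat_lt.comp s.prim t.prim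
  | le s t => exact Primrec.nat_le.comp s.prim t.prim
  | eq s t => exact Primrec.eq.comp s.prim t.prim
  | not p hp => exact hp.not
  | and p q hp hq => exact hp.and hq
  | or p q hp hq => exact hp.or hq
  | imp p q hp hq =>
    refine (hp.not.or hq).of_eq ?_
    intro l
    simp only [Fo.ev]
    tauto
  | iff p q hp hq =>
    refine ((hp.and hq).or (hp.not.and hq.not)).of_eq ?_
    intro l
    simp only [Fo.ev]
    tauto
  | all t p hp =>
    have h1 : PrimrecRel (fun (x : ℕ) (l : List ℕ) => p.ev (l ++ [x])) :=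
      hp.comp (Primrec.list_concat.comp Primrec.snd Primrec.fst)
    have h2 : PrimrecRel (fun (n : ℕ) (l : List ℕ) => ∀ x < n, p.ev (l ++ [x])) := by
      have h3 := h1.forall_mem_list
      have h4 : PrimrecPred (fun q : ℕ × List ℕ => ∀ x ∈ List.range q.1, p.ev (q.2 ++ [x])) :=
        PrimrecRel.comp (R := fun (L : List ℕ) (l : List ℕ) => ∀ x ∈ L, p.ev (l ++ [x])) h3
          (Primrec.list_range.comp Primrec.fst) Primrec.snd
      exact h4.of_eq (fun q => by simp)
    have h3 : PrimrecPred (fun l : List ℕ => ∀ x < t.ev l, p.ev (l ++ [x])) :=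
      PrimrecRel.comp (R := fun (n : ℕ) (l : List ℕ) => ∀ x < n, p.ev (l ++ [x])) h2 t.prim
        (Primrec.id : Primrec (fun l : List ℕ => l))
    exact h3
  | ex t p hp =>
    have h1 : PrimrecRel (fun (x : ℕ) (l : List ℕ) => p.ev (l ++ [x])) :=
      hp.comp (Primrec.list_concat.comp Primrec.snd Primrec.fst)
    have h2 : PrimrecRel (fun (n : ℕ) (l : List ℕ) => ∃ x < n, p.ev (l ++ [x])) := by
      have h3 := h1.exists_mem_list
      have h4 : PrimrecPred (fun q : ℕ × List ℕ => ∃ x ∈ List.range q.1, p.ev (q.2 ++ [x])) :=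
        PrimrecRel.comp (R := fun (L : List ℕ) (l : List ℕ) => ∃ x ∈ L, p.ev (l ++ [x])) h3
          (Primrec.list_range.comp Primrec.fst) Primrec.snd
      exact h4.of_eq (fun q => by simp)
    have h3 : PrimrecPred (fun l : List ℕ => ∃ x < t.ev l, p.ev (l ++ [x])) :=
      PrimrecRel.comp (R := fun (n : ℕ) (l : List ℕ) => ∃ x < n, p.ev (l ++ [x])) h2 t.prim
        (Primrec.id : Primrec (fun l : List ℕ => l))
    exact h3

theorem digits (B : ℕ) (g : ℕ → ℕ) (hg : ∀ i, g i < B) (K : ℕ) :
    ∃ X < B ^ K, ∀ i < K, X / B ^ i % B = g i := by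
  have hB : 0 < B := lt_of_le_of_lt (Nat.zero_le _) (hg 0)
  induction K with
  | zero => exact ⟨0, by simp, by simp⟩
  | succ K ih =>
    obtain ⟨X, hX, h⟩ := ih
    refine ⟨X + g K * B ^ K, ?_, ?_⟩
    · have h1 : (g K + 1) * B ^ K ≤ B * B ^ K := Nat.mul_le_mul_right _ (hg K)
      calc X + g K * B ^ K < B ^ K + g K * B ^ K := by omega
        _ = (g K + 1) * B ^ K := by ring
        _ ≤ B * B ^ K := h1
        _ = B ^ (K + 1) := by ring
    · intro i hi
      rcases Nat.lt_succ_iff_lt_or_eq.1 hi with hi | rfl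
      · have e : g K * B ^ K = B ^ i * (B * (g K * B ^ (K - i - 1))) := by
          have e1 : B ^ K = B ^ i * (B * B ^ (K - i - 1)) := by
            rw [← pow_succ', ← pow_add]
            congr 1
            omega
          rw [e1]; ring
        rw [e, Nat.add_mul_div_left _ _ (Nat.pow_pos hB), Nat.add_mul_mod_self_left]
        exact h i hi
      · rw [Nat.add_mul_div_right _ _ (Nat.pow_pos hB), Nat.div_eq_of_lt hX, zero_add,
          Nat.mod_eq_of_lt (hg i)]

end Pool.Agent.H663R5.K1
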