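import Pool.Agent.H88R3.BA.Defs
import Pool.Agent.H663R5.K1a

set_option autoImplicit false

namespace Pool.Agent.H663R5.K1

open Pool.Agent.H88R3.BA

/-- the table coded by `X` -/
def FX (n N X a b c : ℕ) : ℕ := X / Ed n N ^ Nat.pair a (Nat.pair b c) % Ed n N

/-- number of digits -/
def Kd (n L N : ℕ) : ℕ := Nat.pair 6 (Nat.pair (L + Ed n N) (L + Ed n N))

/-- variable -/
abbrev v (i : ℕ) : Tm := .var i
/-- literal -/
abbrev c (i : ℕ) : Tm := .lit i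

/-- `Lc e` -/
def Lt : Tm := .add (.pair (c 7) (.pair (c 2) (.pair (v 1) (.pair (c 0) (c 0))))) (c 1)
/-- `Ed n N` -/
def Et : Tm := .add (.add (.mul (c 2) (v 2)) (v 0)) (c 2)
/-- `n + 1` -/
def n1 : Tm := .add (v 0) (c 1)
/-- `Wd n L` -/
def Wt : Tm := .add (.add (.mul (.mul (.pow (c 2) Lt) (.pow (.pow (c 2) Lt) n1)) (c 2))
  (.mul (c 2) n1)) (c 2)
/-- `Sd n L` -/
def St : Tm := .mul (.mul (.pow (c 2) Lt)
  (.pow (.mul (.mul (.pow (c 3) Lt) (.pow (c 3) Lt)) (c 2)) n1)) (.pow (.pow (c 2) Lt) n1)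
/-- `Bd n L` -/
def Bt : Tm := .pow Wt St
/-- number of digits -/
def Kt : Tm := .pair (c 6) (.pair (.add Lt Et) (.add Lt Et))
/-- table entry -/
def tb (a b d : Tm) : Tm := .mod (.div (v 3) (.pow Et (.pair a (.pair b d)))) Et

/-- child -/
def fCh (x y : Tm) : Fo := .and (.lt (c 0) y) (.eq (tb (c 0) y (c 0)) x)
/-- end node -/
def fEn (d : ℕ) (x : Tm) : Fo := .all (v 2) (.not (fCh x (v d)))
/-- best child -/
def fBe (x y : Tm) : Fo := .and (fCh x y) (.eq (tb (c 1) y (c 0)) (c 1))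
/-- truth table -/
def fTr (a x : Tm) : Fo := .eq (tb (c 5) a x) (c 1)

/-- `ChkA` -/
def fA : Fo :=
  .and (.lt (c 0) (v 2)) <|
  .and (.all (v 2) (.imp (.lt (c 0) (v 4)) (.lt (tb (c 0) (v 4) (c 0)) (v 4)))) <|
  .and (.all (v 2) (.lt (tb (c 2) (v 4) (c 0)) n1)) <|
  .and (.all (v 2) (.imp (fEn 5 (v 4)) (.all n1 (.eq (tb (c 3) (v 5) (v 4))
    (tb (c 4) (v 5) (v 4)))))) <|
  .and (.all (v 2) (.all (v 2) (.imp (fCh (v 4) (v 5)) (.iff (.eq (tb (c 1) (v 5) (c 0)) (c 1))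
    (.all (v 2) (.imp (fCh (v 4) (v 6)) (.le (tb (c 3) (tb (c 2) (v 4) (c 0)) (v 6))
      (tb (c 4) (tb (c 2) (v 4) (c 0)) (v 5))))))))) <|
  .all (v 2) (.imp (.not (fEn 5 (v 4))) (.all n1 (.and
    (.and (.ex (v 2) (.and (fBe (v 4) (v 6)) (.eq (tb (c 3) (v 5) (v 6)) (tb (c 3) (v 5) (v 4)))))
      (.all (v 2) (.imp (fBe (v 4) (v 6)) (.le (tb (c 3) (v 5) (v 4)) (tb (c 3) (v 5) (v 6))))))
    (.and (.ex (v 2) (.and (fBe (v 4) (v 6)) (.eq (tb (c 4) (v 5) (v 6)) (tb (c 4) (v 5) (v 4)))))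
      (.all (v 2) (.imp (fBe (v 4) (v 6)) (.le (tb (c 4) (v 5) (v 6)) (tb (c 4) (v 5) (v 4)))))))))

theorem fA_ev (n e N X : ℕ) : fA.ev [n, e, N, X] ↔ ChkA n N (FX n N X) := Iff.rfl

/-- `ChkT` at the node `v 4` -/
def fT : Fo :=
  .and (.imp (.lt (.pair (c 0) (c 0)) Lt) (.not (fTr (.pair (c 0) (c 0)) (v 4)))) <|
  .and (.all Lt (.all Lt (.imp (.lt (.pair (c 2) (.pair (v 5) (v 6))) Lt)
    (.iff (fTr (.pair (c 2) (.pair (v 5) (v 6))) (v 4))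
      (.imp (fTr (v 5) (v 4)) (fTr (v 6) (v 4))))))) <|
  .and (.imp (.lt (.pair (c 3) (c 0)) Lt) (.iff (fTr (.pair (c 3) (c 0)) (v 4)) (fEn 5 (v 4)))) <|
  .and (.all n1 (.imp (.lt (.pair (c 4) (v 5)) Lt) (.iff (fTr (.pair (c 4) (v 5)) (v 4))
    (.and (.not (fEn 6 (v 4))) (.eq (tb (c 2) (v 4) (c 0)) (v 5)))))) <|
  .and (.all Lt (.imp (.lt (.pair (c 5) (v 5)) Lt) (.iff (fTr (.pair (c 5) (v 5)) (v 4))
    (.ex (v 2) (.and (fCh (v 4) (v 6)) (fTr (v 5) (v 6))))))) <|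
  .and (.all n1 (.all Lt (.imp (.lt (.pair (c 6) (.pair (v 5) (v 6))) Lt)
    (.iff (fTr (.pair (c 6) (.pair (v 5) (v 6))) (v 4))
      (.and (.eq (tb (c 2) (v 4) (c 0)) (v 5))
        (.ex (v 2) (.and (fCh (v 4) (v 7)) (fTr (v 6) (v 7))))))))) <|
  .and (.all Lt (.imp (.lt (.pair (c 7) (v 5)) Lt) (.iff (fTr (.pair (c 7) (v 5)) (v 4))
    (.ex (v 2) (.and (fCh (v 4) (v 6)) (.or (fTr (v 5) (v 6))
      (fTr (.pair (c 7) (v 5)) (v 6)))))))) <|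
  .and (.all n1 (.all Lt (.imp (.lt (.pair (c 8) (.pair (v 5) (v 6))) Lt)
    (.iff (fTr (.pair (c 8) (.pair (v 5) (v 6))) (v 4))
      (.and (fEn 7 (v 4)) (.ex (v 2) (.and (fEn 8 (v 7))
        (.and (.le (tb (c 3) (v 5) (v 4)) (tb (c 3) (v 5) (v 7))) (fTr (v 6) (v 7)))))))))) <|
  .and (.all Lt (.imp (.lt (.pair (c 9) (v 5)) Lt) (.iff (fTr (.pair (c 9) (v 5)) (v 4))
    (.ex (v 2) (.and (fBe (v 4) (v 6)) (fTr (v 5) (v 6))))))) <|
  .all Lt (.imp (.lt (.pair (c 10) (v 5)) Lt) (.iff (fTr (.pair (c 10) (v 5)) (v 4))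
    (.or (fTr (v 5) (v 4)) (.ex (v 2) (.and (fBe (v 4) (v 6)) (fTr (.pair (c 10) (v 5)) (v 6)))))))

theorem fT_ev (n e N X x : ℕ) :
    fT.ev [n, e, N, X, x] ↔ ChkT n (Lc e) N (FX n N X) x := Iff.rfl

/-- the whole formula -/
def fM : Fo :=
  .all (.add Bt (c 1)) (.all (.pow Et Kt) (.imp (.and fA (.all (v 2) fT))
    (.all (v 2) (fTr (v 1) (v 4)))))

theorem fM_ev (n e : ℕ) : fM.ev [n, e] ↔ ∀ N < Bd n (Lc e) + 1,
    ∀ X < Ed n N ^ Kd n (Lc e) N, Chk n (Lc e) N (FX n N X) →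
      ∀ x < N, Tr (FX n N X) e x := Iff.rfl

section congr

variable {n L N M : ℕ} {F G : ℕ → ℕ → ℕ → ℕ}
  (h : ∀ a < 6, ∀ b < M, ∀ d < M, G a b d = F a b d)

include h

theorem ch_iff {x y : ℕ} (hy : y < M) : Ch G x y ↔ Ch F x y := by
  unfold Ch
  rw [h 0 (by norm_num) y hy 0 (lt_of_le_of_lt (Nat.zero_le _) hy)]

theorem be_iff {x y : ℕ} (hy : y < M) : Be G x y ↔ Be F x y := by
  unfold Be
  rw [ch_iff h hy, h 1 (by norm_num) y hy 0 (lt_of_le_of_lt (Nat.zero_le _) hy)]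

theorem tr_iff {a x : ℕ} (ha : a < M) (hx : x < M) : Tr G a x ↔ Tr F a x := by
  unfold Tr
  rw [h 5 (by norm_num) a ha x hx]

theorem en_iff (hN : N ≤ M) {x : ℕ} : En N G x ↔ En N F x := by
  unfold En
  refine forall₂_congr fun y hy => ?_
  rw [ch_iff h (lt_of_lt_of_le hy hN)]

theorem chkA_congr (hN : N ≤ M) (hn : n + 1 ≤ M) (hF : ChkA n N F) : ChkA n N G := by
  obtain ⟨h1, h2, h3, h4, h5, h6⟩ := hF
  have h0M : 0 < M := lt_of_lt_of_le h1 hN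
  have lt' : ∀ {y}, y < N → y < M := fun hy => lt_of_lt_of_le hy hN
  have ln : ∀ {y}, y < n + 1 → y < M := fun hy => lt_of_lt_of_le hy hn
  refine ⟨h1, ?_, ?_, ?_, ?_, ?_⟩
  · intro y hy hy0
    rw [h 0 (by norm_num) y (lt' hy) 0 h0M]
    exact h2 y hy hy0
  · intro y hy
    rw [h 2 (by norm_num) y (lt' hy) 0 h0M]
    exact h3 y hy
  · intro x hx he j hj
    rw [h 3 (by norm_num) j (ln hj) x (lt' hx), h 4 (by norm_num) j (ln hj) x (lt' hx)]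
    exact h4 x hx ((en_iff h hN).1 he) j hj
  · intro x hx y hy hxy
    have e2 := h 2 (by norm_num) x (lt' hx) 0 h0M
    rw [h 1 (by norm_num) y (lt' hy) 0 h0M, h5 x hx y hy ((ch_iff h (lt' hy)).1 hxy), e2]
    have hj := ln (h3 x hx)
    refine forall₂_congr fun z hz => ?_
    rw [ch_iff h (lt' hz), h 3 (by norm_num) _ hj z (lt' hz), h 4 (by norm_num) _ hj y (lt' hy)]
  · intro x hx he j hj
    obtain ⟨⟨⟨y, hy, hb, hyx⟩, h62⟩, ⟨⟨z, hz, hzb, hzx⟩, h64⟩⟩ :=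
      h6 x hx (fun h' => he ((en_iff h hN).2 h')) j hj
    refine ⟨⟨⟨y, hy, (be_iff h (lt' hy)).2 hb, ?_⟩, ?_⟩,
      ⟨⟨z, hz, (be_iff h (lt' hz)).2 hzb, ?_⟩, ?_⟩⟩
    · rw [h 3 (by norm_num) j (ln hj) y (lt' hy), h 3 (by norm_num) j (ln hj) x (lt' hx)]
      exact hyx
    · intro w hw hwb
      rw [h 3 (by norm_num) j (ln hj) w (lt' hw), h 3 (by norm_num) j (ln hj) x (lt' hx)]
      exact h62 w hw ((be_iff h (lt' hw)).1 hwb)
    · rw [h 4 (by norm_num) j (ln hj) z (lt' hz), h 4 (by norm_num) j (ln hj) x (lt' hx)]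
      exact hzx
    · intro w hw hwb
      rw [h 4 (by norm_num) j (ln hj) w (lt' hw), h 4 (by norm_num) j (ln hj) x (lt' hx)]
      exact h64 w hw ((be_iff h (lt' hw)).1 hwb)

theorem chkT_congr (hN : N ≤ M) (hn : n + 1 ≤ M) (hL : L ≤ M) {x : ℕ} (hx : x < N)
    (hF : ChkT n L N F x) : ChkT n L N G x := by
  obtain ⟨h1, h2, h3, h4, h5, h6, h7, h8, h9, h10⟩ := hF
  have lt' : ∀ {y}, y < N → y < M := fun hy => lt_of_lt_of_le hy hN
  have ln : ∀ {y}, y < n + 1 → y < M := fun hy => lt_of_lt_of_le hy hn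
  have lL : ∀ {y}, y < L → y < M := fun hy => lt_of_lt_of_le hy hL
  have hxM := lt' hx
  have h0M : 0 < M := lt_of_le_of_lt (Nat.zero_le _) hxM
  have eN : ∀ {y}, En N G y ↔ En N F y := en_iff h hN
  have e2 := h 2 (by norm_num) x hxM 0 h0M
  have ex1 : ∀ (P Q : ℕ → Prop), (∀ y < N, (P y ↔ Q y)) →
      ((∃ y < N, P y) ↔ ∃ y < N, Q y) := by
    intro P Q hPQ
    exact exists_congr fun y => and_congr_right fun hy => hPQ y hy
  refine ⟨?_, ?_, ?_, ?_, ?_, ?_, ?_, ?_, ?_, ?_⟩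
  · intro h0
    rw [tr_iff h (lL h0) hxM]
    exact h1 h0
  · intro a ha b hb hab
    rw [tr_iff h (lL hab) hxM, tr_iff h (lL ha) hxM, tr_iff h (lL hb) hxM]
    exact h2 a ha b hb hab
  · intro h0
    rw [tr_iff h (lL h0) hxM, eN]
    exact h3 h0
  · intro i hi h0
    rw [tr_iff h (lL h0) hxM, eN, e2]
    exact h4 i hi h0
  · intro a ha h0
    rw [tr_iff h (lL h0) hxM, h5 a ha h0]
    refine (ex1 _ _ fun y hy => ?_).symm
    rw [ch_iff h (lt' hy), tr_iff h (lL ha) (lt' hy)]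
  · intro i hi a ha h0
    rw [tr_iff h (lL h0) hxM, h6 i hi a ha h0, e2]
    refine and_congr_right fun _ => (ex1 _ _ fun y hy => ?_).symm
    rw [ch_iff h (lt' hy), tr_iff h (lL ha) (lt' hy)]
  · intro a ha h0
    rw [tr_iff h (lL h0) hxM, h7 a ha h0]
    refine (ex1 _ _ fun y hy => ?_).symm
    rw [ch_iff h (lt' hy), tr_iff h (lL ha) (lt' hy), tr_iff h (lL h0) (lt' hy)]
  · intro i hi a ha h0
    rw [tr_iff h (lL h0) hxM, h8 i hi a ha h0, eN]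
    refine and_congr_right fun _ => (ex1 _ _ fun y hy => ?_).symm
    rw [eN, h 3 (by norm_num) i (ln hi) x hxM, h 3 (by norm_num) i (ln hi) y (lt' hy),
      tr_iff h (lL ha) (lt' hy)]
  · intro a ha h0
    rw [tr_iff h (lL h0) hxM, h9 a ha h0]
    refine (ex1 _ _ fun y hy => ?_).symm
    rw [be_iff h (lt' hy), tr_iff h (lL ha) (lt' hy)]
  · intro a ha h0
    rw [tr_iff h (lL h0) hxM, h10 a ha h0, tr_iff h (lL ha) hxM]
    refine or_congr_right (ex1 _ _ fun y hy => ?_).symm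
    rw [be_iff h (lt' hy), tr_iff h (lL h0) (lt' hy)]

theorem chk_congr (hN : N ≤ M) (hn : n + 1 ≤ M) (hL : L ≤ M) (hF : Chk n L N F) :
    Chk n L N G :=
  ⟨chkA_congr h hN hn hF.1, fun x hx => chkT_congr h hN hn hL hx (hF.2 x hx)⟩

end congr

theorem lt_Lc (e : ℕ) : e < Lc e := by
  unfold Lc
  have h1 : e ≤ Nat.pair e (Nat.pair 0 0) := Nat.left_le_pair _ _
  have h2 : Nat.pair e (Nat.pair 0 0) ≤ Nat.pair 2 (Nat.pair e (Nat.pair 0 0)) :=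
    Nat.right_le_pair _ _
  have h3 := Nat.right_le_pair 7 (Nat.pair 2 (Nat.pair e (Nat.pair 0 0)))
  omega

theorem red (n e : ℕ) : fM.ev [n, e] ↔ ∀ N ≤ Bd n (Lc e), ∀ F : ℕ → ℕ → ℕ → ℕ,
    (∀ a b c, F a b c < Ed n N) → Chk n (Lc e) N F → ∀ x < N, Tr F e x := by
  rw [fM_ev]
  constructor
  · intro H N hN F hF hC x hx
    set L := Lc e with hL
    set M := L + Ed n N with hM
    have hNM : N ≤ M := by
      have : Ed n N = 2 * N + n + 2 := rfl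
      omega
    have hnM : n + 1 ≤ M := by
      have : Ed n N = 2 * N + n + 2 := rfl
      omega
    have hLM : L ≤ M := Nat.le_add_right _ _
    obtain ⟨X, hX, hd⟩ := digits (Ed n N)
      (fun i => F i.unpair.1 i.unpair.2.unpair.1 i.unpair.2.unpair.2)
      (fun i => hF _ _ _) (Kd n L N)
    have hag : ∀ a < 6, ∀ b < M, ∀ d < M, FX n N X a b d = F a b d := by
      intro a ha b hb d hd'
      unfold FX
      rw [hd]
      · simp
      · unfold Kd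
        calc Nat.pair a (Nat.pair b d) < Nat.pair 6 (Nat.pair b d) := Nat.pair_lt_pair_left _ ha
          _ < Nat.pair 6 (Nat.pair M d) := Nat.pair_lt_pair_right _ (Nat.pair_lt_pair_left _ hb)
          _ < Nat.pair 6 (Nat.pair M M) := Nat.pair_lt_pair_right _ (Nat.pair_lt_pair_right _ hd')
    have hC' : Chk n L N (FX n N X) := chk_congr hag hNM hnM hLM hC
    have h1 := H N (Nat.lt_succ_of_le hN) X hX hC' x hx
    exact (tr_iff hag (lt_of_lt_of_le (lt_Lc e) hLM) (lt_of_lt_of_le hx hNM)).1 h1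
  · intro H N hN X hX hC x hx
    refine H N (Nat.le_of_lt_succ hN) (FX n N X) ?_ hC x hx
    intro a b d
    exact Nat.mod_lt _ (by unfold Ed; omega)

end Pool.Agent.H663R5.K1

namespace Pool.Agent.H88R3.BA

open Pool.Agent.H663R5.K1 in
theorem dec : ∃ f : ℕ × ℕ → Bool, Primrec f ∧ ∀ n e, f (n, e) = true ↔
    ∀ N ≤ Bd n (Lc e), ∀ F : ℕ → ℕ → ℕ → ℕ, (∀ a b c, F a b c < Ed n N) →
      Chk n (Lc e) N F → ∀ x < N, Tr F e x := by
  have h1 : PrimrecPred (fun q : ℕ × ℕ => fM.ev [q.1, q.2]) :=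
    fM.prim.comp (Primrec.list_cons.comp Primrec.fst
      (Primrec.list_cons.comp Primrec.snd (Primrec.const [])))
  obtain ⟨hd, hp⟩ := h1
  refine ⟨fun q => decide (fM.ev [q.1, q.2]), hp, ?_⟩
  intro n e
  rw [decide_eq_true_iff]
  exact red n e

end Pool.Agent.H88R3.BA
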