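import Mathlib
import Pool.Agent.H143R3.MT.Stmts

set_option autoImplicit false

namespace Pool.Agent.H663R5.MTA1

open MeasureTheory ProbabilityTheory Filter Topology
open scoped ENNReal NNReal
open Pool.Agent.H143R3.MT

/-- Poisson on `ℤ` -/
noncomputable def PA (r : ℝ≥0) : Measure ℤ := (poissonMeasure r).map (Nat.cast : ℕ → ℤ)

/-- negated Poisson on `ℤ` -/
noncomputable def NA (r : ℝ≥0) : Measure ℤ := (PA r).map (fun x : ℤ => -x)

instance (r : ℝ≥0) : IsProbabilityMeasure (PA r) :=
  Measure.isProbabilityMeasure_map (by fun_prop)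

instance (r : ℝ≥0) : IsProbabilityMeasure (NA r) :=
  Measure.isProbabilityMeasure_map (by fun_prop)

theorem prob (s : ℝ≥0) : IsProbabilityMeasure (skellam s) := by
  unfold skellam
  exact Measure.isProbabilityMeasure_map (by fun_prop)

instance (s : ℝ≥0) : IsProbabilityMeasure (skellam s) := prob s

theorem skellam_eq (s : ℝ≥0) : skellam s = PA (s / 2) ∗ NA (s / 2) := by
  have h1 : NA (s / 2) = (poissonMeasure (s / 2)).map (fun n : ℕ => -(n : ℤ)) := by
    unfold NA PA
    rw [Measure.map_map (by fun_prop) (by fun_prop)]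
    rfl
  rw [h1]
  unfold skellam PA Measure.conv
  rw [Measure.map_prod_map _ _ (by fun_prop) (by fun_prop),
    Measure.map_map (by fun_prop) (by fun_prop)]
  congr 1

theorem PA_conv (r₁ r₂ : ℝ≥0) : PA r₁ ∗ PA r₂ = PA (r₁ + r₂) :=
  map_cast_poissonMeasure_conv r₁ r₂

theorem NA_conv (r₁ r₂ : ℝ≥0) : NA r₁ ∗ NA r₂ = NA (r₁ + r₂) := by
  have h := Measure.map_conv_addMonoidHom (μ := PA r₁) (ν := PA r₂) (negAddMonoidHom : ℤ →+ ℤ)
    (by fun_prop)
  rw [PA_conv] at h
  exact h.symm

theorem sk_conv (s r : ℝ≥0) : skellam (s + r) = skellam s ∗ skellam r := by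
  rw [skellam_eq, skellam_eq, skellam_eq, add_div, ← PA_conv, ← NA_conv]
  rw [Measure.conv_assoc, Measure.conv_assoc]
  congr 1
  rw [← Measure.conv_assoc, ← Measure.conv_assoc, Measure.conv_comm (PA (r / 2)) (NA (s / 2))]

theorem map_neg (s : ℝ≥0) : (skellam s).map (fun x : ℤ => -x) = skellam s := by
  unfold skellam
  rw [Measure.map_map (by fun_prop) (by fun_prop)]
  conv_rhs => rw [← Measure.prod_swap, Measure.map_map (by fun_prop) (by fun_prop)]
  congr 1
  funext p
  simp

theorem taskA1 : TaskA1 := by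
  refine ⟨prob, ?_, ?_, ?_⟩
  · intro s k
    unfold sk
    conv_lhs => rw [← map_neg]
    rw [Measure.map_apply (by fun_prop) (MeasurableSet.singleton _)]
    congr 1
    ext x
    simp
  · intro s
    unfold sk
    have h := MeasureTheory.lintegral_countable' (μ := skellam s) (fun _ => (1 : ℝ≥0∞))
    simp only [lintegral_const, measure_univ, mul_one, one_mul] at h
    exact h.symm
  · intro s r k
    unfold sk
    rw [sk_conv]
    have h1 : (skellam s ∗ skellam r) {k} =
        ∫⁻ z, (({k} : Set ℤ).indicator (fun _ => (1 : ℝ≥0∞))) z ∂(skellam s ∗ skellam r) := by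
      rw [lintegral_indicator (MeasurableSet.singleton _)]
      simp
    rw [h1, Measure.lintegral_conv (by fun_prop), MeasureTheory.lintegral_countable']
    refine tsum_congr fun j => ?_
    rw [mul_comm]
    congr 1
    have h2 : (fun y : ℤ => (({k} : Set ℤ).indicator (fun _ => (1 : ℝ≥0∞))) (j + y)) =
        (({k - j} : Set ℤ).indicator (fun _ => (1 : ℝ≥0∞))) := by
      funext y
      by_cases hy : j + y = k
      · have : y = k - j := by omega
        simp [this]
      · have : y ≠ k - j := by omega
        simp [this, hy]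
    rw [h2, lintegral_indicator (MeasurableSet.singleton _)]
    simp

end Pool.Agent.H663R5.MTA1
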