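import Pool.Agent.H839R3.Nas.Stmts

set_option autoImplicit false

namespace Pool.Agent.H663R5.Top3

open FirstOrder FirstOrder.Language
open Pool.Agent.Helper672.Plain (LSet Mem IsPair IsOrdPair Zermelo)
open Pool.Agent.H635Amen (ZF)
open Pool.Agent.H310Cards
open Pool.Agent.H310Top
open Pool.Agent.H839R3.Nas

universe u

section gen

variable {N : Type u} [LSet.Structure N]

theorem def_mem (v : N) : (Set.univ : Set N).Definable₁ LSet {z | Mem z v} := by
  refine ⟨Relations.formula₂ (Sum.inl Pool.Agent.Helper672.Plain.Sym.mem :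
    (LSet[[(Set.univ : Set N)]]).Relations 2) (Term.var 0)
      (Constants.term (LSet.con (⟨v, trivial⟩ : (Set.univ : Set N)))), ?_⟩
  ext x
  have h := Formula.realize_rel₂ (M := N) (R := (Sum.inl Pool.Agent.Helper672.Plain.Sym.mem :
    (LSet[[(Set.univ : Set N)]]).Relations 2)) (t₁ := Term.var (0 : Fin 1))
    (t₂ := Constants.term (LSet.con (⟨v, trivial⟩ : (Set.univ : Set N)))) (v := x)
  refine Iff.trans ?_ h.symm
  rw [Term.realize_constants]
  rfl

theorem exists_inter [Zermelo N] (a b : N) : ∃ w, ∀ z, Mem z w ↔ Mem z a ∧ Mem z b := by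
  obtain ⟨y, hy⟩ := Zermelo.separation _ (def_mem b) a
  exact ⟨y, hy⟩

theorem pair_fst {q x y x' y' : N} (h : IsOrdPair q x y) (h' : IsOrdPair q x' y') : x = x' := by
  obtain ⟨s, d, hs, hd, hq⟩ := h
  obtain ⟨s', d', hs', hd', hq'⟩ := h'
  have h1 : Mem s q := (hq s).2 (Or.inl rfl)
  rcases (hq' s).1 h1 with rfl | rfl
  · have h2 : Mem x s := (hs x).2 (Or.inl rfl)
    rcases (hs' x).1 h2 with h | h <;> exact h
  · have h2 : Mem x' s := (hd' x').2 (Or.inl rfl)
    rcases (hs x').1 h2 with h | h <;> exact h.symm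

theorem app_dom {j a b x y : N} (hf : IsFun j a b) (h : App j x y) : Mem x a := by
  obtain ⟨q, hq, hj⟩ := h
  obtain ⟨x', y', hx', -, hq'⟩ := hf.1 q hj
  rw [pair_fst hq hq']
  exact hx'

/-- finite intersections of open neighbourhoods -/
theorem fin_inter [Zermelo N] {t k p : N} (ht : IsTopology t k) (hp : Mem p k) {ι : Type*}
    (A : Finset ι) (P : ι → N → Prop)
    (h : ∀ i ∈ A, ∃ w, Mem w t ∧ Mem p w ∧ ∀ z, Mem z w → P i z) :
    ∃ w, Mem w t ∧ Mem p w ∧ ∀ i ∈ A, ∀ z, Mem z w → P i z := by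
  classical
  induction A using Finset.induction_on with
  | empty => exact ⟨k, ht.univ, hp, fun i hi => absurd hi (Finset.notMem_empty i)⟩
  | insert a s ha ih =>
    obtain ⟨w, hw, hpw, h1⟩ := ih fun i hi => h i (Finset.mem_insert_of_mem hi)
    obtain ⟨v, hv, hpv, h2⟩ := h a (Finset.mem_insert_self a s)
    obtain ⟨c, hc⟩ := exists_inter w v
    refine ⟨c, ht.inter w v c hw hv hc, (hc p).2 ⟨hpw, hpv⟩, fun i hi z hz => ?_⟩
    obtain ⟨hz1, hz2⟩ := (hc z).1 hz
    rcases Finset.mem_insert.1 hi with rfl | hi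
    · exact h2 z hz2
    · exact h1 i hi z hz1

end gen

theorem taskTop3 : TaskTop3 := by
  classical
  intro H2 U hE hHo N _ S k t j C
  have : ZF N := S.zf
  obtain ⟨e1, he1⟩ := S.sup_ex k
  obtain ⟨e2, he2⟩ := S.sup_ex t
  obtain ⟨e3, he3⟩ := S.sup_ex j
  set e : Finset V := e1 ∪ (e2 ∪ e3) with he
  have hk : S.sup e k := S.sup_mono _ _ _ (by intro x hx; simp [he, hx]) he1
  have ht : S.sup e t := S.sup_mono _ _ _ (by intro x hx; simp [he, hx]) he2
  have hj : S.sup e j := S.sup_mono _ _ _ (by intro x hx; simp [he, hx]) he3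
  let E : AddSubgroup V := (Submodule.span (ZMod 2) (e : Set V)).toAddSubgroup
  have hEfin : (E : Set V).Finite := by
    have : Finite (Submodule.span (ZMod 2) (e : Set V)) := by
      have : Module.Finite (ZMod 2) (Submodule.span (ZMod 2) (e : Set V)) :=
        Module.Finite.span_of_finite _ e.finite_toSet
      exact Module.finite_of_finite (ZMod 2)
    exact Set.toFinite (Submodule.span (ZMod 2) (e : Set V) : Set V)
  have heE : (e : Set V) ⊆ E := Submodule.subset_span
  have H := H2 U hE hHo N S k t j C e hk ht hj E hEfin heE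
  have hEF : Finite {v : V // v ∈ E} := hEfin
  let _ : Fintype {v : V // v ∈ E} := Fintype.ofFinite _
  -- extension of a pattern
  let ex : ({v : V // v ∈ E} → Prop) → V → Prop := fun f v => ∃ h : v ∈ E, f ⟨v, h⟩
  have claim1 : ∀ p, Mem p k → ∃ f : {v : V // v ∈ E} → Prop, InCl S k t j (Pat U E (ex f)) p := by
    intro p hp
    by_contra hcon
    push Not at hcon
    have h1 : ∀ f ∈ (Finset.univ : Finset ({v : V // v ∈ E} → Prop)), ∃ w, Mem w t ∧ Mem p w ∧
        ∀ z, Mem z w → ¬ ∃ x ∈ Pat U E (ex f), App j (S.pt x) z := by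
      intro f _
      have h2 := hcon f
      unfold InCl at h2
      push Not at h2
      obtain ⟨w, hw, hpw, h3⟩ := h2 hp
      refine ⟨w, hw, hpw, ?_⟩
      rintro z hz ⟨x, hx, ha⟩
      exact h3 x hx z ha hz
    obtain ⟨w, hw, hpw, h4⟩ := fin_inter C.top hp _ _ h1
    obtain ⟨x, y, hxy, hyw⟩ := C.dense w hw ⟨p, hpw⟩
    obtain ⟨a, rfl⟩ := (S.mem_D x).1 (app_dom C.inj.1 hxy)
    refine h4 (fun h => U (a + h.1)) (Finset.mem_univ _) y hyw ⟨a, ?_, hxy⟩
    intro h hh
    constructor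
    · intro hU
      exact ⟨hh, hU⟩
    · rintro ⟨_, hU⟩
      exact hU
  -- finitely many non-image points
  have claim2 : {p | Mem p k ∧ ∀ x, ¬ App j x p}.Finite := by
    have h1 : ∀ p : {p | Mem p k ∧ ∀ x, ¬ App j x p}, ∃ f : {v : V // v ∈ E} → Prop,
        InCl S k t j (Pat U E (ex f)) p.1 := fun p => claim1 p.1 p.2.1
    choose F hF using h1
    have hinj : Function.Injective F := by
      intro p q hpq
      apply Subtype.ext
      refine H (ex (F p)) p.1 q.1 p.2.2 q.2.2 (hF p) ?_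
      rw [hpq]
      exact hF q
    have : Finite {p | Mem p k ∧ ∀ x, ¬ App j x p} := Finite.of_injective F hinj
    exact Set.toFinite _
  -- image points are isolated
  have claim3 : ∀ x y, App j x y → Mem y k →
      ∃ w, Mem w t ∧ Mem y w ∧ ∀ z, Mem z w → z = y := by
    intro x y hxy hy
    obtain ⟨w, hw, hyw, h1⟩ := C.disc x y hxy
    refine ⟨w, hw, hyw, fun z hz => ?_⟩
    by_contra hne
    have hzk : Mem z k := C.top.sub w hw z hz
    obtain ⟨u1, u2, hu1, hu2, hy1, hz2, hdis⟩ := C.haus y z hy hzk (fun h => hne h.symm)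
    obtain ⟨c, hc⟩ := exists_inter w u2
    have hct := C.top.inter w u2 c hw hu2 hc
    obtain ⟨x', y', hxy', hyc⟩ := C.dense c hct ⟨z, (hc z).2 ⟨hz, hz2⟩⟩
    obtain ⟨ha, hb⟩ := (hc y').1 hyc
    have : y' = y := h1 x' y' hxy' ha
    subst this
    exact hdis y' hy1 hb
  -- scattered
  intro a hak ⟨z₀, hz₀⟩
  by_cases him : ∃ y, Mem y a ∧ ∃ x, App j x y
  · obtain ⟨y, hya, x, hxy⟩ := him
    obtain ⟨w, hw, hyw, h1⟩ := claim3 x y hxy (hak y hya)
    exact ⟨y, hya, w, hw, hyw, fun z hz _ => h1 z hz⟩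
  · push Not at him
    have hfin : {z | Mem z a}.Finite := claim2.subset fun z hz => ⟨hak z hz, him z hz⟩
    obtain ⟨w, hw, hzw, h1⟩ := fin_inter C.top (hak z₀ hz₀) (hfin.toFinset.erase z₀)
      (fun i z => z ≠ i) (by
        intro i hi
        have hi1 : i ≠ z₀ := (Finset.mem_erase.1 hi).1
        have hi2 : Mem i a := by simpa using (Finset.mem_erase.1 hi).2
        obtain ⟨u1, u2, hu1, hu2, hy1, hz2, hdis⟩ :=
          C.haus z₀ i (hak z₀ hz₀) (hak i hi2) (fun h => hi1 h.symm)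
        refine ⟨u1, hu1, hy1, fun z hz hzi => ?_⟩
        subst hzi
        exact hdis z hz hz2)
    refine ⟨z₀, hz₀, w, hw, hzw, fun y hy hya => ?_⟩
    by_contra hne
    refine h1 y (Finset.mem_erase.2 ⟨hne, by simpa using hya⟩) y hy rfl

end Pool.Agent.H663R5.Top3
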