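import Pool.Agent.H902R3.XI.Stmts

set_option autoImplicit false

/-! # Task M2 of the XI project (helper902): first moment of the window average -/

namespace Pool.Agent.H663R5.XIM2

open Complex MeasureTheory Set Pool.Agent.H902R3.XI

theorem term_eq (c x l : ℝ) :
    (c : ℂ) * cexp (-I * x * l) = ((c * Real.cos (x * l) : ℝ) : ℂ) +
      ((-(c * Real.sin (x * l)) : ℝ) : ℂ) * I := by
  have h : (-I * x * l : ℂ) = ((-(x * l) : ℝ) : ℂ) * I := by push_cast; ring
  rw [h, Complex.exp_mul_I, ← Complex.ofReal_cos, ← Complex.ofReal_sin, Real.cos_neg, Real.sin_neg]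
  push_cast
  ring

theorem DP_eq (c : ℕ → ℝ) (K : ℕ) (x : ℝ) :
    DP c K x = ((∑ n ∈ Finset.Icc 1 K, c n * Real.cos (x * Real.log n) : ℝ) : ℂ) +
      ((-∑ n ∈ Finset.Icc 1 K, c n * Real.sin (x * Real.log n) : ℝ) : ℂ) * I := by
  unfold DP
  rw [Finset.sum_congr rfl (fun n _ => term_eq (c n) x (Real.log n)), Finset.sum_add_distrib,
    ← Finset.sum_mul]
  push_cast
  rw [Finset.sum_neg_distrib]

theorem norm_DP (c : ℕ → ℝ) (K : ℕ) (x : ℝ) :
    ‖DP c K x‖ ^ 2 = ∑ m ∈ Finset.Icc 1 K, ∑ n ∈ Finset.Icc 1 K,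
      c m * c n * Real.cos (x * (Real.log m - Real.log n)) := by
  rw [DP_eq, ← Complex.normSq_eq_norm_sq, Complex.normSq_add_mul_I]
  have h : ∀ m n : ℕ, c m * c n * Real.cos (x * (Real.log m - Real.log n)) =
      (c m * Real.cos (x * Real.log m)) * (c n * Real.cos (x * Real.log n)) +
      (c m * Real.sin (x * Real.log m)) * (c n * Real.sin (x * Real.log n)) := by
    intro m n
    rw [mul_sub, Real.cos_sub]; ring
  simp only [h, Finset.sum_add_distrib]
  rw [← Finset.sum_mul_sum, ← Finset.sum_mul_sum]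
  ring

theorem inner_int (x w θ : ℝ) (hθ : θ ≠ 0) :
    ∫ u in (0 : ℝ)..w, Real.cos ((x + u) * θ) =
      2 * Real.sin (w * θ / 2) / θ * Real.cos ((x + w / 2) * θ) := by
  have h1 : ∀ u ∈ uIcc (0 : ℝ) w, HasDerivAt (fun u => Real.sin ((x + u) * θ) / θ)
      (Real.cos ((x + u) * θ)) u := by
    intro u _
    have h2 : HasDerivAt (fun u : ℝ => (x + u) * θ) θ u := by
      simpa using ((hasDerivAt_id u).const_add x).mul_const θ
    have h3 := (h2.sin).div_const θ
    have e : Real.cos ((x + u) * θ) * θ / θ = Real.cos ((x + u) * θ) := by field_simp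
    rwa [e] at h3
  rw [intervalIntegral.integral_eq_sub_of_hasDerivAt h1
    (Continuous.intervalIntegrable (by fun_prop) _ _)]
  rw [← sub_div, Real.sin_sub_sin]
  have e1 : ((x + w) * θ - (x + 0) * θ) / 2 = w * θ / 2 := by ring
  have e2 : ((x + w) * θ + (x + 0) * θ) / 2 = (x + w / 2) * θ := by ring
  rw [e1, e2]
  ring

theorem inner_zero (x w : ℝ) : ∫ u in (0 : ℝ)..w, Real.cos ((x + u) * 0) = w := by
  simp

theorem outer_bound (x₀ H w θ : ℝ) (hθ : θ ≠ 0) :
    |∫ x in x₀..(x₀ + H), Real.cos ((x + w / 2) * θ)| ≤ 2 / |θ| := by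
  have h1 : ∀ x ∈ uIcc x₀ (x₀ + H), HasDerivAt (fun x => Real.sin ((x + w / 2) * θ) / θ)
      (Real.cos ((x + w / 2) * θ)) x := by
    intro x _
    have h2 : HasDerivAt (fun x : ℝ => (x + w / 2) * θ) θ x := by
      simpa using ((hasDerivAt_id x).add_const (w / 2)).mul_const θ
    have h3 := (h2.sin).div_const θ
    have e : Real.cos ((x + w / 2) * θ) * θ / θ = Real.cos ((x + w / 2) * θ) := by field_simp
    rwa [e] at h3
  rw [intervalIntegral.integral_eq_sub_of_hasDerivAt h1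
    (Continuous.intervalIntegrable (by fun_prop) _ _), ← sub_div, abs_div]
  apply div_le_div_of_nonneg_right _ (abs_nonneg θ)
  have ha := Real.abs_sin_le_one ((x₀ + H + w / 2) * θ)
  have hb := Real.abs_sin_le_one ((x₀ + w / 2) * θ)
  calc _ ≤ |Real.sin ((x₀ + H + w / 2) * θ)| + |Real.sin ((x₀ + w / 2) * θ)| := abs_sub _ _
    _ ≤ 2 := by linarith

theorem log_gap {K m n : ℕ} (hm : 1 ≤ m) (hmn : m < n) (hn : n ≤ K) :
    1 / (K : ℝ) ≤ Real.log n - Real.log m := by
  have hm0 : (0 : ℝ) < m := by exact_mod_cast hm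
  have hn0 : (0 : ℝ) < n := by exact_mod_cast (by omega : 0 < n)
  have hK0 : (0 : ℝ) < K := by exact_mod_cast (by omega : 0 < K)
  rw [← Real.log_div hn0.ne' hm0.ne']
  have h1 : 1 - ((n : ℝ) / m)⁻¹ ≤ Real.log ((n : ℝ) / m) :=
    Real.one_sub_inv_le_log_of_pos (by positivity)
  refine le_trans ?_ h1
  rw [inv_div]
  have h2 : (m : ℝ) + 1 ≤ n := by exact_mod_cast hmn
  have h3 : (n : ℝ) ≤ K := by exact_mod_cast hn
  have e : 1 - (m : ℝ) / n = (n - m) / n := by field_simp
  rw [e, div_le_div_iff₀ hK0 hn0]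
  nlinarith

theorem gap_abs {K m n : ℕ} (hm : m ∈ Finset.Icc 1 K) (hn : n ∈ Finset.Icc 1 K) (h : m ≠ n) :
    1 / (K : ℝ) ≤ |Real.log m - Real.log n| := by
  rw [Finset.mem_Icc] at hm hn
  rcases lt_or_gt_of_ne h with h | h
  · rw [abs_sub_comm]
    exact (log_gap hm.1 h hn.2).trans (le_abs_self _)
  · exact (log_gap hn.1 h hm.2).trans (le_abs_self _)

theorem taskM2 : TaskM2 := by
  intro c K hK hc w H x₀ hw hH
  have hK0 : (0 : ℝ) < K := by exact_mod_cast (by omega : 0 < K)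
  have hK1 : (1 : ℝ) ≤ K := by exact_mod_cast (by omega : 1 ≤ K)
  set s := Finset.Icc 1 K with hs
  set q : ℕ → ℕ → ℝ → ℝ := fun m n x =>
    w⁻¹ * ∫ u in (0 : ℝ)..w, Real.cos ((x + u) * (Real.log m - Real.log n)) with hq
  have hAw : ∀ x, Aw c K w x = ∑ m ∈ s, ∑ n ∈ s, c m * c n * q m n x := by
    intro x
    unfold Aw
    simp only [norm_DP]
    rw [intervalIntegral.integral_finsetSum]
    · rw [Finset.mul_sum]
      refine Finset.sum_congr rfl fun m _ => ?_
      rw [intervalIntegral.integral_finsetSum]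
      · rw [Finset.mul_sum]
        refine Finset.sum_congr rfl fun n _ => ?_
        rw [intervalIntegral.integral_const_mul, hq]
        ring
      · intro n _
        exact Continuous.intervalIntegrable (by fun_prop) _ _
    · intro m _
      exact Continuous.intervalIntegrable (by fun_prop) _ _
  have hqe : ∀ m n : ℕ, Real.log m - Real.log n ≠ 0 → ∀ x, q m n x =
      (w⁻¹ * (2 * Real.sin (w * (Real.log m - Real.log n) / 2) / (Real.log m - Real.log n))) *
        Real.cos ((x + w / 2) * (Real.log m - Real.log n)) := by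
    intro m n h x
    simp only [hq]
    rw [inner_int x w _ h]
    ring
  have hq0 : ∀ m x, q m m x = 1 := by
    intro m x
    simp only [hq, sub_self]
    rw [inner_zero, inv_mul_cancel₀ hw.ne']
  have hqc : ∀ m n, Continuous (q m n) := by
    intro m n
    by_cases h : Real.log m - Real.log n = 0
    · have : q m n = fun _ => 1 := by
        funext x
        simp only [hq, h]
        rw [inner_zero, inv_mul_cancel₀ hw.ne']
      rw [this]
      exact continuous_const
    · have : q m n = fun x => (w⁻¹ * (2 * Real.sin (w * (Real.log m - Real.log n) / 2) /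
        (Real.log m - Real.log n))) * Real.cos ((x + w / 2) * (Real.log m - Real.log n)) :=
        funext (hqe m n h)
      rw [this]
      fun_prop
  have hI : H⁻¹ * ∫ x in x₀..(x₀ + H), Aw c K w x =
      ∑ m ∈ s, ∑ n ∈ s, c m * c n * (H⁻¹ * ∫ x in x₀..(x₀ + H), q m n x) := by
    simp only [hAw]
    rw [intervalIntegral.integral_finsetSum]
    · rw [Finset.mul_sum]
      refine Finset.sum_congr rfl fun m _ => ?_
      rw [intervalIntegral.integral_finsetSum]
      · rw [Finset.mul_sum]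
        refine Finset.sum_congr rfl fun n _ => ?_
        rw [intervalIntegral.integral_const_mul]
        ring
      · intro n _
        exact (continuous_const.mul (hqc m n)).intervalIntegrable _ _
    · intro m _
      exact (continuous_finset_sum _ fun n _ =>
        continuous_const.mul (hqc m n)).intervalIntegrable _ _
  have hdiag : ∀ m, H⁻¹ * ∫ x in x₀..(x₀ + H), q m m x = 1 := by
    intro m
    have : q m m = fun _ => 1 := funext (hq0 m)
    rw [this]
    simp [hH.ne']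
  have hoff : ∀ m ∈ s, ∀ n ∈ s, m ≠ n →
      -(2 * K / H) ≤ H⁻¹ * ∫ x in x₀..(x₀ + H), q m n x := by
    intro m hm n hn hmn
    have hg := gap_abs hm hn hmn
    set θ := Real.log m - Real.log n with hθ
    have hθpos : 0 < |θ| := lt_of_lt_of_le (by positivity) hg
    have hθ0 : θ ≠ 0 := abs_pos.1 hθpos
    have h1 : ∫ x in x₀..(x₀ + H), q m n x = (w⁻¹ * (2 * Real.sin (w * θ / 2) / θ)) *
        ∫ x in x₀..(x₀ + H), Real.cos ((x + w / 2) * θ) := by
      have : q m n = fun x => (w⁻¹ * (2 * Real.sin (w * θ / 2) / θ)) *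
          Real.cos ((x + w / 2) * θ) := funext (hqe m n hθ0)
      rw [this, intervalIntegral.integral_const_mul]
    have h2 : |w⁻¹ * (2 * Real.sin (w * θ / 2) / θ)| ≤ 1 := by
      rw [abs_mul, abs_div, abs_mul, abs_inv, abs_of_pos hw, abs_two]
      have h3 : |Real.sin (w * θ / 2)| ≤ |w * θ / 2| := Real.abs_sin_le_abs
      have h4 : |w * θ / 2| = w * |θ| / 2 := by
        rw [abs_div, abs_mul, abs_of_pos hw, abs_two]
      rw [h4] at h3
      have h5 : 2 * |Real.sin (w * θ / 2)| / |θ| ≤ w := by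
        rw [div_le_iff₀ hθpos]
        linarith
      calc w⁻¹ * (2 * |Real.sin (w * θ / 2)| / |θ|) ≤ w⁻¹ * w :=
            mul_le_mul_of_nonneg_left h5 (by positivity)
        _ = 1 := inv_mul_cancel₀ hw.ne'
    have h3 := outer_bound x₀ H w θ hθ0
    have h4 : 2 / |θ| ≤ 2 * K := by
      rw [div_le_iff₀ hθpos]
      rw [div_le_iff₀ hK0] at hg
      nlinarith
    have h5 : |∫ x in x₀..(x₀ + H), q m n x| ≤ 2 * K := by
      rw [h1, abs_mul]
      calc _ ≤ 1 * (2 / |θ|) := mul_le_mul h2 h3 (abs_nonneg _) (by norm_num)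
        _ ≤ 2 * K := by linarith
    have h6 := (abs_le.1 h5).1
    have h7 : H⁻¹ * (-(2 * K)) ≤ H⁻¹ * ∫ x in x₀..(x₀ + H), q m n x :=
      mul_le_mul_of_nonneg_left h6 (by positivity)
    calc -(2 * (K : ℝ) / H) = H⁻¹ * (-(2 * K)) := by field_simp
      _ ≤ _ := h7
  rw [hI]
  -- lower bound
  have hlow : ∀ m ∈ s, ∀ n ∈ s, (if m = n then c m ^ 2 else 0) - c m * c n * (2 * K / H) ≤
      c m * c n * (H⁻¹ * ∫ x in x₀..(x₀ + H), q m n x) := by
    intro m hm n hn
    have hcc : 0 ≤ c m * c n := mul_nonneg (hc m) (hc n)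
    by_cases h : m = n
    · subst h
      rw [if_pos rfl, hdiag]
      have : 0 ≤ c m * c m * (2 * K / H) := by positivity
      nlinarith
    · rw [if_neg h]
      have := mul_le_mul_of_nonneg_left (hoff m hm n hn h) hcc
      linarith
  have hsum : ∑ m ∈ s, ∑ n ∈ s, ((if m = n then c m ^ 2 else 0) - c m * c n * (2 * K / H)) ≤
      ∑ m ∈ s, ∑ n ∈ s, c m * c n * (H⁻¹ * ∫ x in x₀..(x₀ + H), q m n x) :=
    Finset.sum_le_sum fun m hm => Finset.sum_le_sum fun n hn => hlow m hm n hn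
  refine le_trans ?_ hsum
  have e1 : ∑ m ∈ s, ∑ n ∈ s, ((if m = n then c m ^ 2 else 0) - c m * c n * (2 * K / H)) =
      ∑ m ∈ s, c m ^ 2 - (∑ m ∈ s, c m) * (∑ n ∈ s, c n) * (2 * K / H) := by
    simp only [Finset.sum_sub_distrib]
    congr 1
    · refine Finset.sum_congr rfl fun m hm => ?_
      rw [Finset.sum_ite_eq, if_pos hm]
    · rw [Finset.sum_mul_sum, Finset.sum_mul]
      refine Finset.sum_congr rfl fun m _ => ?_
      rw [Finset.sum_mul]
  rw [e1]
  have hCS : (∑ m ∈ s, c m) * (∑ n ∈ s, c n) ≤ K * ∑ m ∈ s, c m ^ 2 := by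
    have h := sq_sum_le_card_mul_sum_sq (s := s) (f := c)
    have hcard : (s.card : ℝ) = K := by simp [hs]
    rw [hcard] at h
    rw [← sq]
    exact h
  have hS : 0 ≤ ∑ m ∈ s, c m ^ 2 := Finset.sum_nonneg fun m _ => sq_nonneg _
  have h8 : (∑ m ∈ s, c m) * (∑ n ∈ s, c n) * (2 * K / H) ≤
      (K * ∑ m ∈ s, c m ^ 2) * (2 * K / H) :=
    mul_le_mul_of_nonneg_right hCS (by positivity)
  have h9 : (K * ∑ m ∈ s, c m ^ 2) * (2 * K / H) ≤ 8 * (K : ℝ) ^ 4 / H * ∑ m ∈ s, c m ^ 2 := by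
    have e : (K * ∑ m ∈ s, c m ^ 2) * (2 * K / H) = (2 * (K : ℝ) ^ 2 / H) * ∑ m ∈ s, c m ^ 2 := by
      field_simp
    rw [e]
    apply mul_le_mul_of_nonneg_right _ hS
    apply div_le_div_of_nonneg_right _ hH.le
    have : (K : ℝ) ^ 2 ≤ (K : ℝ) ^ 4 := pow_le_pow_right₀ hK1 (by norm_num)
    nlinarith [sq_nonneg (K : ℝ)]
  linarith

end Pool.Agent.H663R5.XIM2
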